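import Mathlib
import Pool.Agent.Lib.H45Torus.Main

set_option autoImplicit false

namespace Pool.Agent.Results.MP_03212a_an.NowhereDensePeriodic

open H45T

/-- There is a homeomorphism of the two-torus, isotopic to the identity and topologically
transitive, which has a lift whose rotation set has nonempty interior, and whose set of periodic
points is nowhere dense.  (Negative answer to Q1.) -/
theorem result :
    ∃ f : T2 ≃ₜ T2, IsotopicToId f ∧ Transitive f ∧
      (∃ F : Pl ≃ₜ Pl, IsLift F f ∧ (interior (rotationSet F)).Nonempty) ∧
      interior (closure (periodicSet f)) = ∅ :=
  main

end Pool.Agent.Results.MP_03212a_an.NowhereDensePeriodic
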